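import Pool.Agent.H14SI.Check

/-!
The clauses satisfied by the meeting relations of a tight semiintersecting family with ten members,
and the check that the entries of a clause tree are among them.
-/

set_option autoImplicit false

namespace H14SI

/-- Index below `45` of the unordered pair `i, j`. -/
def pidx (i j : ℕ) : ℕ :=
  Bool.rec (motive := fun _ => ℕ)
    (Nat.sub (Nat.add (Nat.div (Nat.mul j (Nat.sub 17 j)) 2) i) 1)
    (Nat.sub (Nat.add (Nat.div (Nat.mul i (Nat.sub 17 i)) 2) j) 1) (Nat.blt i j)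

/-- The pairs in the order of their indices. -/
def tab : List (ℕ × ℕ) :=
  (List.range 10).flatMap fun i => ((List.range 10).filter fun j => i < j).map fun j => (i, j)

theorem tab_pidx : ∀ i < 10, ∀ j < 10, i < j → tab.getD (pidx i j) (0, 0) = (i, j) := by
  decide +kernel

theorem pidx_comm : ∀ i < 10, ∀ j < 10, i ≠ j → pidx i j = pidx j i := by
  decide +kernel

theorem pidx_lt : ∀ i < 10, ∀ j < 10, i ≠ j → pidx i j < 45 := by
  decide +kernel

/-- The relation `red`, or its negation. -/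
def col (red : ℕ → ℕ → Prop) (c : Bool) (i j : ℕ) : Prop := if c = true then red i j else ¬ red i j

/-- One of two relations. -/
def sel (H0 H1 : ℕ → ℕ → Prop) (c : Bool) (i j : ℕ) : Prop := if c = true then H0 i j else H1 i j

/-- The valuation of the variables by the three relations. -/
def val (red H0 H1 : ℕ → ℕ → Prop) (k p : ℕ) : Prop :=
  if k = 0 then red (tab.getD p (0, 0)).1 (tab.getD p (0, 0)).2
  else if k = 1 then H0 (tab.getD p (0, 0)).1 (tab.getD p (0, 0)).2
  else H1 (tab.getD p (0, 0)).1 (tab.getD p (0, 0)).2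

/-- The properties of the relations used as axioms. `red i j`: the members `i`, `j` meet in the
first half; `H0 i j`: they have at least two thirds of their points in the first half in common;
`H1` is the same for the second half. -/
structure Ax (red H0 H1 : ℕ → ℕ → Prop) : Prop where
  sym : ∀ i j, red i j → red j i
  hsym : ∀ c i j, sel H0 H1 c i j → sel H0 H1 c j i
  k4 : ∀ c a b d e, a < b → b < d → d < e → e < 10 → col red c a b → col red c a d →
    col red c a e → col red c b d → col red c b e → col red c d e → False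
  hr : ∀ c i j, i < j → j < 10 → sel H0 H1 c i j → col red c i j
  km : ∀ c v x y z, v < 10 → x < 10 → y < 10 → z < 10 → v ≠ x → v ≠ y → v ≠ z → x ≠ y → x ≠ z →
    y ≠ z → ¬ col red c v x → ¬ col red c v y → ¬ col red c v z → ¬ col red c x y →
    ¬ col red c x z → sel H0 H1 c y z
  hh : ∀ c y z u, y < 10 → z < 10 → u < 10 → y ≠ z → y ≠ u → z ≠ u → sel H0 H1 c y z →
    sel H0 H1 c y u → col red c z u
  p3 : ∀ c i j, i < j → j < 10 → col red c i j → ∃ k < 10, k ≠ i ∧ k ≠ j ∧ col red c i k ∧
    col red c j k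
  p2 : ∀ c a b d, a < b → b < d → d < 10 → ∃ p q r, p < q ∧ q < r ∧ r < 10 ∧ p ≠ a ∧ p ≠ b ∧
    p ≠ d ∧ q ≠ a ∧ q ≠ b ∧ q ≠ d ∧ r ≠ a ∧ r ≠ b ∧ r ≠ d ∧ col red c p q ∧ col red c p r ∧
    col red c q r

/-- The literal: the pair `i, j` has the colour `c`. -/
def CL (c : Bool) (i j : ℕ) : ℕ :=
  Nat.add (Bool.rec (motive := fun _ => ℕ) 45 0 c) (pidx i j)

/-- The literal: the pair `i, j` is heavy for `c`. -/
def HL (c : Bool) (i j : ℕ) : ℕ :=
  Nat.add (Bool.rec (motive := fun _ => ℕ) 180 90 c) (pidx i j)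

/-- The literal: the pair `i, j` is not heavy for `c`. -/
def NHL (c : Bool) (i j : ℕ) : ℕ :=
  Nat.add (Bool.rec (motive := fun _ => ℕ) 225 135 c) (pidx i j)

theorem tr_CL {red H0 H1 : ℕ → ℕ → Prop} (h : Ax red H0 H1) (c : Bool) (i j : ℕ) (hi : i < 10)
    (hj : j < 10) (hij : i ≠ j) : tr (val red H0 H1) (CL c i j) ↔ col red c i j := by
  have key : ∀ p q : ℕ, p < 10 → q < 10 → p < q →
      (tr (val red H0 H1) (CL c p q) ↔ col red c p q) := by
    intro p q hp hq hpq
    have h1 := pidx_lt p hp q hq (by omega)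
    have h2 := tab_pidx p hp q hq hpq
    have h3 : CL c p q = (if c = true then 0 else 45) + pidx p q := by cases c <;> rfl
    unfold tr col
    rw [h3]
    cases c
    · have e1 : (45 + pidx p q) / 45 = 1 := by omega
      have e2 : (45 + pidx p q) / 90 = 0 := by omega
      have e3 : (45 + pidx p q) % 45 = pidx p q := by omega
      simp only [Bool.false_eq_true, if_false, e1, e2, e3, val, h2, if_true]
      constructor
      · rintro ⟨-, -, h4⟩
        exact h4 (by norm_num)
      · intro h4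
        refine ⟨by omega, fun h5 => by norm_num at h5, fun _ => h4⟩
    · have e1 : (0 + pidx p q) / 45 = 0 := by omega
      have e2 : (0 + pidx p q) / 90 = 0 := by omega
      have e3 : (0 + pidx p q) % 45 = pidx p q := by omega
      simp only [if_true, e1, e2, e3, val, h2]
      constructor
      · rintro ⟨-, h4, -⟩
        exact h4 (by norm_num)
      · intro h4
        refine ⟨by omega, fun _ => h4, fun h5 => by norm_num at h5⟩
  rcases Nat.lt_or_gt_of_ne hij with h4 | h4
  · exact key i j hi hj h4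
  · have h5 : CL c i j = CL c j i := by
      unfold CL
      rw [pidx_comm i hi j hj hij]
    rw [h5, key j i hj hi h4]
    unfold col
    cases c
    · simp only [Bool.false_eq_true, if_false]
      exact not_congr ⟨h.sym j i, h.sym i j⟩
    · simp only [if_true]
      exact ⟨h.sym j i, h.sym i j⟩

theorem tr_HL {red H0 H1 : ℕ → ℕ → Prop} (h : Ax red H0 H1) (c : Bool) (i j : ℕ) (hi : i < 10)
    (hj : j < 10) (hij : i ≠ j) : tr (val red H0 H1) (HL c i j) ↔ sel H0 H1 c i j := by
  have key : ∀ p q : ℕ, p < 10 → q < 10 → p < q →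
      (tr (val red H0 H1) (HL c p q) ↔ sel H0 H1 c p q) := by
    intro p q hp hq hpq
    have h1 := pidx_lt p hp q hq (by omega)
    have h2 := tab_pidx p hp q hq hpq
    have h3 : HL c p q = (if c = true then 90 else 180) + pidx p q := by cases c <;> rfl
    unfold tr sel
    rw [h3]
    cases c
    · have e1 : (180 + pidx p q) / 45 = 4 := by omega
      have e2 : (180 + pidx p q) / 90 = 2 := by omega
      have e3 : (180 + pidx p q) % 45 = pidx p q := by omega
      simp only [Bool.false_eq_true, if_false, e1, e2, e3, val, h2]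
      constructor
      · rintro ⟨-, h4, -⟩
        simpa using h4 (by norm_num)
      · intro h4
        refine ⟨by omega, fun _ => by simpa using h4, fun h5 => by norm_num at h5⟩
    · have e1 : (90 + pidx p q) / 45 = 2 := by omega
      have e2 : (90 + pidx p q) / 90 = 1 := by omega
      have e3 : (90 + pidx p q) % 45 = pidx p q := by omega
      simp only [if_true, e1, e2, e3, val, h2]
      constructor
      · rintro ⟨-, h4, -⟩
        simpa using h4 (by norm_num)
      · intro h4
        refine ⟨by omega, fun _ => by simpa using h4, fun h5 => by norm_num at h5⟩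
  rcases Nat.lt_or_gt_of_ne hij with h4 | h4
  · exact key i j hi hj h4
  · have h5 : HL c i j = HL c j i := by
      unfold HL
      rw [pidx_comm i hi j hj hij]
    rw [h5, key j i hj hi h4]
    exact ⟨h.hsym c j i, h.hsym c i j⟩

theorem tr_NHL {red H0 H1 : ℕ → ℕ → Prop} (h : Ax red H0 H1) (c : Bool) (i j : ℕ) (hi : i < 10)
    (hj : j < 10) (hij : i ≠ j) : tr (val red H0 H1) (NHL c i j) ↔ ¬ sel H0 H1 c i j := by
  have key : ∀ p q : ℕ, p < 10 → q < 10 → p < q →
      (tr (val red H0 H1) (NHL c p q) ↔ ¬ sel H0 H1 c p q) := by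
    intro p q hp hq hpq
    have h1 := pidx_lt p hp q hq (by omega)
    have h2 := tab_pidx p hp q hq hpq
    have h3 : NHL c p q = (if c = true then 135 else 225) + pidx p q := by cases c <;> rfl
    unfold tr sel
    rw [h3]
    cases c
    · have e1 : (225 + pidx p q) / 45 = 5 := by omega
      have e2 : (225 + pidx p q) / 90 = 2 := by omega
      have e3 : (225 + pidx p q) % 45 = pidx p q := by omega
      simp only [Bool.false_eq_true, if_false, e1, e2, e3, val, h2]
      constructor
      · rintro ⟨-, -, h4⟩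
        simpa using h4 (by norm_num)
      · intro h4
        refine ⟨by omega, fun h5 => by norm_num at h5, fun _ => by simpa using h4⟩
    · have e1 : (135 + pidx p q) / 45 = 3 := by omega
      have e2 : (135 + pidx p q) / 90 = 1 := by omega
      have e3 : (135 + pidx p q) % 45 = pidx p q := by omega
      simp only [if_true, e1, e2, e3, val, h2]
      constructor
      · rintro ⟨-, -, h4⟩
        simpa using h4 (by norm_num)
      · intro h4
        refine ⟨by omega, fun h5 => by norm_num at h5, fun _ => by simpa using h4⟩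
  rcases Nat.lt_or_gt_of_ne hij with h4 | h4
  · exact key i j hi hj h4
  · have h5 : NHL c i j = NHL c j i := by
      unfold NHL
      rw [pidx_comm i hi j hj hij]
    rw [h5, key j i hj hi h4]
    exact not_congr ⟨h.hsym c j i, h.hsym c i j⟩

/-- The bit `l` of `M`. -/
def tb (M l : ℕ) : Bool := Nat.beq (Nat.land (Nat.shiftRight M l) 1) 1

theorem tb_eq (M l : ℕ) (h : tb M l = true) : M.testBit l = true := by
  have h1 : (M >>> l) &&& 1 = 1 := Nat.eq_of_beq_eq_true h
  rw [Nat.and_one_is_mod] at h1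
  rw [Nat.testBit_eq_decide_div_mod_eq, ← Nat.shiftRight_eq_div_pow, h1]
  rfl

/-- The reasons for a clause. -/
inductive J where
  | k4 (c : Bool) (a b d e : ℕ) : J
  | hr (c : Bool) (i j : ℕ) : J
  | km (c : Bool) (v x y z : ℕ) : J
  | hh (c : Bool) (y z u : ℕ) : J
  | p3 (c : Bool) (i j : ℕ) : J
  | p2 (c : Bool) (a b d : ℕ) : J
  | fx (c : Bool) (i j : ℕ) : J
  | nt (a b d : ℕ) : J

/-- All triples `p < q < r < 10`. -/
def tris : List (ℕ × ℕ × ℕ) :=
  (List.range 10).flatMap fun p => ((List.range 10).filter fun q => p < q).flatMap fun q =>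
    ((List.range 10).filter fun r => q < r).map fun r => (p, q, r)

theorem mem_tris (p q r : ℕ) (hr : r < 10) (hpq : p < q) (hqr : q < r) : (p, q, r) ∈ tris := by
  unfold tris
  simp only [List.mem_flatMap, List.mem_map, List.mem_filter, List.mem_range, decide_eq_true_eq]
  exact ⟨p, by omega, q, ⟨by omega, hpq⟩, r, ⟨hr, hqr⟩, rfl⟩

/-- The clause `M` follows from the reason `j`. The list `fix` contains the literals that are
assumed; `nt` tells whether it is assumed that no red triangle lies in `1, …, 5`. -/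
def okJ (fix : List (Bool × ℕ × ℕ)) (nt : Bool) (M : ℕ) : J → Bool
  | J.k4 c a b d e => Nat.blt a b && Nat.blt b d && Nat.blt d e && Nat.blt e 10 &&
      tb M (CL (!c) a b) && tb M (CL (!c) a d) && tb M (CL (!c) a e) && tb M (CL (!c) b d) &&
      tb M (CL (!c) b e) && tb M (CL (!c) d e)
  | J.hr c i j => Nat.blt i j && Nat.blt j 10 && tb M (NHL c i j) && tb M (CL c i j)
  | J.km c v x y z => Nat.blt v 10 && Nat.blt x 10 && Nat.blt y 10 && Nat.blt z 10 &&
      !(Nat.beq v x) && !(Nat.beq v y) && !(Nat.beq v z) && !(Nat.beq x y) && !(Nat.beq x z) &&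
      !(Nat.beq y z) && tb M (CL c v x) && tb M (CL c v y) && tb M (CL c v z) &&
      tb M (CL c x y) && tb M (CL c x z) && tb M (HL c y z)
  | J.hh c y z u => Nat.blt y 10 && Nat.blt z 10 && Nat.blt u 10 &&
      !(Nat.beq y z) && !(Nat.beq y u) && !(Nat.beq z u) && tb M (NHL c y z) &&
      tb M (NHL c y u) && tb M (CL c z u)
  | J.p3 c i j => Nat.blt i j && Nat.blt j 10 && tb M (CL (!c) i j) &&
      (List.range 10).all fun k => Nat.beq k i || Nat.beq k j || tb M (CL c i k) ||
        tb M (CL c j k)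
  | J.p2 c a b d => Nat.blt a b && Nat.blt b d && Nat.blt d 10 &&
      tris.all fun t => (Nat.beq t.1 a || Nat.beq t.1 b || Nat.beq t.1 d || Nat.beq t.2.1 a ||
        Nat.beq t.2.1 b || Nat.beq t.2.1 d || Nat.beq t.2.2 a || Nat.beq t.2.2 b ||
        Nat.beq t.2.2 d || tb M (CL c t.1 t.2.1) || tb M (CL c t.1 t.2.2) ||
        tb M (CL c t.2.1 t.2.2))
  | J.fx c i j => fix.contains (c, i, j) && Nat.blt i j && Nat.blt j 10 && tb M (CL c i j)
  | J.nt a b d => nt && Nat.blt 0 a && Nat.blt a b && Nat.blt b d && Nat.blt d 6 &&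
      tb M (CL false a b) && tb M (CL false a d) && tb M (CL false b d)

theorem okJ_sound {red H0 H1 : ℕ → ℕ → Prop} (h : Ax red H0 H1) (fix : List (Bool × ℕ × ℕ))
    (nt : Bool) (hfix : ∀ t ∈ fix, col red t.1 t.2.1 t.2.2)
    (hnt : nt = true → ∀ a b d : ℕ, 0 < a → a < b → b < d → d < 6 →
      ¬ (red a b ∧ red a d ∧ red b d))
    (M : ℕ) (j : J) (hj : okJ fix nt M j = true) : Holds (val red H0 H1) M := by
  have cneg : ∀ (c : Bool) (i j : ℕ), ¬ col red (!c) i j → col red c i j := by
    intro c i j hc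
    unfold col at hc ⊢
    cases c
    · simpa using hc
    · simpa using hc
  by_contra hcon
  have hC : ∀ c i j, tb M (CL c i j) = true → i < 10 → j < 10 → i ≠ j → ¬ col red c i j :=
    fun c i j ht hi hj hij hc => hcon ⟨_, tb_eq _ _ ht, (tr_CL h c i j hi hj hij).2 hc⟩
  have hH : ∀ c i j, tb M (HL c i j) = true → i < 10 → j < 10 → i ≠ j → ¬ sel H0 H1 c i j :=
    fun c i j ht hi hj hij hc => hcon ⟨_, tb_eq _ _ ht, (tr_HL h c i j hi hj hij).2 hc⟩
  have hN : ∀ c i j, tb M (NHL c i j) = true → i < 10 → j < 10 → i ≠ j → sel H0 H1 c i j :=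
    fun c i j ht hi hj hij => by
      by_contra hc
      exact hcon ⟨_, tb_eq _ _ ht, (tr_NHL h c i j hi hj hij).2 hc⟩
  have hlt : ∀ a b : ℕ, Nat.blt a b = true → a < b := fun a b hab => Nat.le_of_ble_eq_true hab
  have hne : ∀ a b : ℕ, Nat.beq a b = false → a ≠ b := fun a b hab he => by
    subst he
    rw [Nat.beq_refl] at hab
    exact Bool.noConfusion hab
  have hlt' : ∀ a b : ℕ, a < b → Nat.blt a b = true := fun a b hab => Nat.ble_eq_true_of_le hab
  cases j with
  | k4 c a b d e =>
    simp only [okJ, Bool.and_eq_true] at hj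
    obtain ⟨⟨⟨⟨⟨⟨⟨⟨⟨h1, h2⟩, h3⟩, h4⟩, g1⟩, g2⟩, g3⟩, g4⟩, g5⟩, g6⟩ := hj
    have h1 := hlt _ _ h1
    have h2 := hlt _ _ h2
    have h3 := hlt _ _ h3
    have h4 := hlt _ _ h4
    exact h.k4 c a b d e h1 h2 h3 h4
      (cneg _ _ _ (hC _ _ _ g1 (by omega) (by omega) (by omega)))
      (cneg _ _ _ (hC _ _ _ g2 (by omega) (by omega) (by omega)))
      (cneg _ _ _ (hC _ _ _ g3 (by omega) (by omega) (by omega)))
      (cneg _ _ _ (hC _ _ _ g4 (by omega) (by omega) (by omega)))
      (cneg _ _ _ (hC _ _ _ g5 (by omega) (by omega) (by omega)))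
      (cneg _ _ _ (hC _ _ _ g6 (by omega) (by omega) (by omega)))
  | hr c i j =>
    simp only [okJ, Bool.and_eq_true] at hj
    obtain ⟨⟨⟨h1, h2⟩, g1⟩, g2⟩ := hj
    have h1 := hlt _ _ h1
    have h2 := hlt _ _ h2
    exact hC _ _ _ g2 (by omega) (by omega) (by omega)
      (h.hr c i j h1 h2 (hN _ _ _ g1 (by omega) (by omega) (by omega)))
  | km c v x y z =>
    simp only [okJ, Bool.and_eq_true, Bool.not_eq_true'] at hj
    obtain ⟨⟨⟨⟨⟨⟨⟨⟨⟨⟨⟨⟨⟨⟨⟨h1, h2⟩, h3⟩, h4⟩, n1⟩, n2⟩, n3⟩, n4⟩, n5⟩, n6⟩, g1⟩, g2⟩, g3⟩, g4⟩, g5⟩,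
      g6⟩ := hj
    have h1 := hlt _ _ h1
    have h2 := hlt _ _ h2
    have h3 := hlt _ _ h3
    have h4 := hlt _ _ h4
    have n1 := hne _ _ n1
    have n2 := hne _ _ n2
    have n3 := hne _ _ n3
    have n4 := hne _ _ n4
    have n5 := hne _ _ n5
    have n6 := hne _ _ n6
    exact hH _ _ _ g6 h3 h4 n6 (h.km c v x y z h1 h2 h3 h4 n1 n2 n3 n4 n5 n6
      (hC _ _ _ g1 h1 h2 n1) (hC _ _ _ g2 h1 h3 n2) (hC _ _ _ g3 h1 h4 n3)
      (hC _ _ _ g4 h2 h3 n4) (hC _ _ _ g5 h2 h4 n5))
  | hh c y z u =>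
    simp only [okJ, Bool.and_eq_true, Bool.not_eq_true'] at hj
    obtain ⟨⟨⟨⟨⟨⟨⟨⟨h1, h2⟩, h3⟩, n1⟩, n2⟩, n3⟩, g1⟩, g2⟩, g3⟩ := hj
    have h1 := hlt _ _ h1
    have h2 := hlt _ _ h2
    have h3 := hlt _ _ h3
    have n1 := hne _ _ n1
    have n2 := hne _ _ n2
    have n3 := hne _ _ n3
    exact hC _ _ _ g3 h2 h3 n3 (h.hh c y z u h1 h2 h3 n1 n2 n3 (hN _ _ _ g1 h1 h2 n1)
      (hN _ _ _ g2 h1 h3 n2))
  | p3 c i j =>
    simp only [okJ, Bool.and_eq_true, List.all_eq_true, List.mem_range, Bool.or_eq_true] at hj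
    obtain ⟨⟨⟨h1, h2⟩, g1⟩, g2⟩ := hj
    have h1 := hlt _ _ h1
    have h2 := hlt _ _ h2
    obtain ⟨k, hk, hki, hkj, c1, c2⟩ := h.p3 c i j h1 h2
      (cneg _ _ _ (hC _ _ _ g1 (by omega) (by omega) (by omega)))
    rcases g2 k hk with ((g | g) | g) | g
    · exact hki (Nat.eq_of_beq_eq_true g)
    · exact hkj (Nat.eq_of_beq_eq_true g)
    · exact hC _ _ _ g (by omega) hk (fun he => hki he.symm) c1
    · exact hC _ _ _ g (by omega) hk (fun he => hkj he.symm) c2
  | p2 c a b d =>
    simp only [okJ, Bool.and_eq_true, List.all_eq_true, Bool.or_eq_true] at hj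
    obtain ⟨⟨⟨h1, h2⟩, h3⟩, g2⟩ := hj
    have h1 := hlt _ _ h1
    have h2 := hlt _ _ h2
    have h3 := hlt _ _ h3
    obtain ⟨p, q, r, hpq, hqr, hr, e1, e2, e3, e4, e5, e6, e7, e8, e9, c1, c2, c3⟩ :=
      h.p2 c a b d h1 h2 h3
    rcases g2 (p, q, r) (mem_tris p q r hr hpq hqr) with
      ((((((((((g | g) | g) | g) | g) | g) | g) | g) | g) | g) | g) | g
    · exact e1 (Nat.eq_of_beq_eq_true g)
    · exact e2 (Nat.eq_of_beq_eq_true g)
    · exact e3 (Nat.eq_of_beq_eq_true g)
    · exact e4 (Nat.eq_of_beq_eq_true g)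
    · exact e5 (Nat.eq_of_beq_eq_true g)
    · exact e6 (Nat.eq_of_beq_eq_true g)
    · exact e7 (Nat.eq_of_beq_eq_true g)
    · exact e8 (Nat.eq_of_beq_eq_true g)
    · exact e9 (Nat.eq_of_beq_eq_true g)
    · exact hC c p q g (by omega) (by omega) (by omega) c1
    · exact hC c p r g (by omega) (by omega) (by omega) c2
    · exact hC c q r g (by omega) (by omega) (by omega) c3
  | fx c i j =>
    simp only [okJ, Bool.and_eq_true] at hj
    obtain ⟨⟨⟨h0, h1⟩, h2⟩, g1⟩ := hj
    have h1 := hlt _ _ h1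
    have h2 := hlt _ _ h2
    exact hC _ _ _ g1 (by omega) (by omega) (by omega)
      (hfix (c, i, j) (List.contains_iff_mem.1 h0))
  | nt a b d =>
    simp only [okJ, Bool.and_eq_true] at hj
    obtain ⟨⟨⟨⟨⟨⟨⟨h0, h1⟩, h2⟩, h3⟩, h4⟩, g1⟩, g2⟩, g3⟩ := hj
    have h1 := hlt _ _ h1
    have h2 := hlt _ _ h2
    have h3 := hlt _ _ h3
    have h4 := hlt _ _ h4
    exact hnt h0 a b d h1 h2 h3 h4
      ⟨by simpa [col] using cneg true _ _ (hC false _ _ g1 (by omega) (by omega) (by omega)),
       by simpa [col] using cneg true _ _ (hC false _ _ g2 (by omega) (by omega) (by omega)),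
       by simpa [col] using cneg true _ _ (hC false _ _ g3 (by omega) (by omega) (by omega))⟩

/-- Check that the clauses with indices `s, s + 1, …` have the listed reasons. -/
noncomputable def jchk (fix : List (Bool × ℕ × ℕ)) (nt : Bool) (t : T) (js : List J) : ℕ → Bool :=
  List.rec (motive := fun _ => ℕ → Bool) (fun _ => true)
    (fun j _ ih s =>
      Bool.rec (motive := fun _ => Bool) false (force (Nat.succ s) ih)
        (okJ fix nt (find t s) j)) js

theorem jchk_sound {red H0 H1 : ℕ → ℕ → Prop} (h : Ax red H0 H1) (fix : List (Bool × ℕ × ℕ))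
    (nt : Bool) (hfix : ∀ t ∈ fix, col red t.1 t.2.1 t.2.2)
    (hnt : nt = true → ∀ a b d : ℕ, 0 < a → a < b → b < d → d < 6 →
      ¬ (red a b ∧ red a d ∧ red b d)) (t : T) (js : List J) : ∀ s : ℕ,
    (∀ i < s, Holds (val red H0 H1) (find t i)) → jchk fix nt t js s = true →
    ∀ i < s + js.length, Holds (val red H0 H1) (find t i) := by
  induction js with
  | nil =>
    intro s h0 _ i hi
    exact h0 i (by simpa using hi)
  | cons a js ih =>
    intro s h0 hc
    change (Bool.rec (motive := fun _ => Bool) false (force (Nat.succ s) (jchk fix nt t js))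
        (okJ fix nt (find t s) a)) = true at hc
    cases hb : okJ fix nt (find t s) a
    · rw [hb] at hc
      exact (Bool.false_ne_true hc).elim
    · rw [hb] at hc
      change force (Nat.succ s) (jchk fix nt t js) = true at hc
      rw [force_eq] at hc
      have hs' := okJ_sound h fix nt hfix hnt _ _ hb
      have h1 : ∀ i < s + 1, Holds (val red H0 H1) (find t i) := by
        intro i hi
        rcases Nat.lt_succ_iff_lt_or_eq.1 hi with h2 | h2
        · exact h0 i h2
        · rw [h2]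
          exact hs'
      intro i hi
      have hi' : i < Nat.succ s + js.length := by
        rw [List.length_cons] at hi
        omega
      exact ih (Nat.succ s) h1 hc i hi'

end H14SI
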