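import Mathlib.Tactic
import Mathlib.Data.Nat.Bitwise

/-!
A small verified checker for clausal proofs (reverse unit propagation with hints), evaluated by the
kernel. Clauses are bit masks of literals; the literal `l` and its negation `neg l` are numbers
below `270`.
-/

set_option autoImplicit false

namespace H14SI

/-- A binary tree of clause masks, indexed by positive numbers. -/
inductive T where
  | nil : T
  | node : T → ℕ → T → T

/-- The mask of the clause `x ∨ ¬ x` for the first variable. -/
def dflt : ℕ := 1 + 2 ^ 45

/-- The entry with index `i`. -/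
noncomputable def find (t : T) : ℕ → ℕ :=
  T.rec (motive := fun _ => ℕ → ℕ) (fun _ => dflt)
    (fun _ v _ fl fr i =>
      Bool.rec (motive := fun _ => ℕ)
        (Bool.rec (motive := fun _ => ℕ) (fl (Nat.div i 2)) (fr (Nat.div i 2))
          (Nat.beq (Nat.mod i 2) 1)) v (Nat.beq i 1)) t

/-- The positions of the literals with an even kind. -/
def ev : ℕ := 0x1fffffffffff000000000007ffffffffffc00000000001fffffffffff

/-- Evaluate the argument before passing it on. -/
noncomputable def force (x : ℕ) (k : ℕ → Bool) : Bool :=
  Nat.rec (motive := fun _ => Bool) (k 0) (fun n _ => k (Nat.succ n)) x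

/-- The mask of the negation of the literal with the mask `r`. -/
def negm (r : ℕ) : ℕ :=
  Bool.rec (motive := fun _ => ℕ) (Nat.shiftLeft r 45) (Nat.shiftRight r 45)
    (Nat.beq (Nat.land r ev) 0)

/-- One unit propagation step with the clause `c`: `F` is the set of false literals; `k` continues
with the new set of false literals. -/
noncomputable def step (c F : ℕ) (k : ℕ → Bool) : Bool :=
  Nat.rec (motive := fun _ => Bool) true
    (fun n _ =>
      Bool.rec (motive := fun _ => Bool) false (force (Nat.lor F (negm (Nat.succ n))) k)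
        (Nat.beq (Nat.land (Nat.succ n) n) 0))
    (Nat.xor (Nat.lor c F) F)

/-- Reverse unit propagation: `h` lists the hints in base `8192`. -/
noncomputable def rup (t : T) (bound : ℕ) (fuel : ℕ) : ℕ → ℕ → Bool :=
  Nat.rec (motive := fun _ => ℕ → ℕ → Bool) (fun _ _ => false)
    (fun _ ih h F =>
      force (Nat.mod h 8192) fun i =>
        Bool.rec (motive := fun _ => Bool) false
          (step (find t i) F (fun F' => force (Nat.div h 8192) fun h' => ih h' F'))
          (Nat.ble (Nat.succ i) bound)) fuel

/-- Check the clauses with indices `s, s + 1, …`, whose hints are listed. -/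
noncomputable def chk (t : T) (hs : List ℕ) : ℕ → Bool :=
  List.rec (motive := fun _ => ℕ → Bool) (fun _ => true)
    (fun h _ ih s =>
      Bool.rec (motive := fun _ => Bool) false (force (Nat.succ s) ih)
        (rup t s 400 h (find t s))) hs

/-! ### Soundness -/

theorem find_nil (i : ℕ) : find T.nil i = dflt := rfl

theorem find_node (l r : T) (v i : ℕ) :
    find (T.node l v r) i =
      if i = 1 then v else if i % 2 = 1 then find r (i / 2) else find l (i / 2) := by
  have h1 : find (T.node l v r) i = Bool.rec (motive := fun _ => ℕ)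
        (Bool.rec (motive := fun _ => ℕ) (find l (Nat.div i 2)) (find r (Nat.div i 2))
          (Nat.beq (Nat.mod i 2) 1)) v (Nat.beq i 1) := rfl
  rw [h1]
  by_cases hi : i = 1
  · subst hi
    rfl
  · have h2 : Nat.beq i 1 = false := by
      cases h : Nat.beq i 1
      · rfl
      · exact absurd (Nat.eq_of_beq_eq_true h) hi
    rw [h2, if_neg hi]
    by_cases h3 : i % 2 = 1
    · have h4 : Nat.beq (Nat.mod i 2) 1 = true := by
        have : Nat.mod i 2 = 1 := h3
        rw [this]
        rfl
      rw [h4, if_pos h3]
      rfl
    · have h4 : Nat.beq (Nat.mod i 2) 1 = false := by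
        cases h : Nat.beq (Nat.mod i 2) 1
        · rfl
        · exact absurd (Nat.eq_of_beq_eq_true h) h3
      rw [h4, if_neg h3]
      rfl

theorem find_zero (t : T) : find t 0 = dflt := by
  induction t with
  | nil => rfl
  | node l v r ihl _ =>
    rw [find_node]
    simpa using ihl

/-- The truth value of the literal `l`, for the valuation `V` of the variables: the variables have
one of three kinds and an index below `45`. -/
def tr (V : ℕ → ℕ → Prop) (l : ℕ) : Prop :=
  l < 270 ∧ ((l / 45) % 2 = 0 → V (l / 90) (l % 45)) ∧ ((l / 45) % 2 = 1 → ¬ V (l / 90) (l % 45))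

/-- Some literal of the clause is true. -/
def Holds (V : ℕ → ℕ → Prop) (c : ℕ) : Prop := ∃ l, c.testBit l = true ∧ tr V l

theorem holds_dflt (V : ℕ → ℕ → Prop) : Holds V dflt := by
  by_cases h : V 0 0
  · refine ⟨0, by decide, by norm_num, fun _ => ?_, fun h' => ?_⟩
    · simpa using h
    · norm_num at h'
  · refine ⟨45, by decide, by norm_num, fun h' => ?_, fun _ => ?_⟩
    · norm_num at h'
    · simpa using h

theorem force_eq (x : ℕ) (k : ℕ → Bool) : force x k = k x := by
  cases x <;> rfl

theorem ev_bit : ∀ l < 270, (ev.testBit l = true ↔ (l / 45) % 2 = 0) := by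
  decide +kernel

theorem negm_two_pow (V : ℕ → ℕ → Prop) (l : ℕ) (hl : tr V l) (x : ℕ)
    (hx : (negm (2 ^ l)).testBit x = true) : ¬ tr V x := by
  have hl0 := hl.1
  have hev := ev_bit l hl0
  by_cases h : (l / 45) % 2 = 0
  · have h1 : Nat.beq (Nat.land (2 ^ l) ev) 0 = false := by
      cases h2 : Nat.beq (Nat.land (2 ^ l) ev) 0
      · rfl
      · have h3 : 2 ^ l &&& ev = 0 := Nat.eq_of_beq_eq_true h2
        have h4 : (2 ^ l &&& ev).testBit l = true := by
          rw [Nat.testBit_and, hev.2 h, Nat.testBit_two_pow_self]
          rfl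
        rw [h3, Nat.zero_testBit] at h4
        exact absurd h4 (by decide)
    have h2 : negm (2 ^ l) = 2 ^ (l + 45) := by
      unfold negm
      rw [h1]
      change 2 ^ l <<< 45 = _
      rw [Nat.shiftLeft_eq, pow_add]
    rw [h2, Nat.testBit_two_pow] at hx
    have hx' : l + 45 = x := by simpa using hx
    intro ht
    have h5 := hl.2.1 h
    have h6 := ht.2.2 (by omega)
    apply h6
    have e1 : x / 90 = l / 90 := by omega
    have e2 : x % 45 = l % 45 := by omega
    rw [e1, e2]
    exact h5
  · have h' : (l / 45) % 2 = 1 := by omega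
    have h1 : Nat.beq (Nat.land (2 ^ l) ev) 0 = true := by
      have h3 : 2 ^ l &&& ev = 0 := by
        apply Nat.eq_of_testBit_eq
        intro i
        rw [Nat.testBit_and, Nat.zero_testBit, Nat.testBit_two_pow]
        by_cases hi : l = i
        · subst hi
          have : ev.testBit l = false := by
            cases h2 : ev.testBit l
            · rfl
            · exact absurd (hev.1 h2) h
          simp [this]
        · simp [hi]
      have h4 : Nat.land (2 ^ l) ev = 0 := h3
      rw [h4]
      rfl
    have h2 : negm (2 ^ l) = 2 ^ (l - 45) := by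
      unfold negm
      rw [h1]
      change 2 ^ l >>> 45 = _
      rw [Nat.shiftRight_eq_div_pow]
      have : l = (l - 45) + 45 := by omega
      conv_lhs => rw [this, pow_add]
      exact Nat.mul_div_cancel _ (by positivity)
    rw [h2, Nat.testBit_two_pow] at hx
    have hx' : l - 45 = x := by simpa using hx
    intro ht
    have h5 := hl.2.2 h'
    have h6 := ht.2.1 (by omega)
    apply h5
    have e1 : x / 90 = l / 90 := by omega
    have e2 : x % 45 = l % 45 := by omega
    rw [← e1, ← e2]
    exact h6

theorem step_sound (V : ℕ → ℕ → Prop) (c F : ℕ) (k : ℕ → Bool) (hc : Holds V c)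
    (hF : ∀ x, F.testBit x = true → ¬ tr V x) (h : step c F k = true) :
    ∃ F', (∀ x, F'.testBit x = true → ¬ tr V x) ∧ k F' = true := by
  obtain ⟨l, hl, ht⟩ := hc
  have hbit : ((c ||| F) ^^^ F).testBit l = true := by
    have hFl : F.testBit l = false := by
      cases h2 : F.testBit l
      · rfl
      · exact absurd ht (hF l h2)
    rw [Nat.testBit_xor, Nat.testBit_or, hl, hFl]
    rfl
  unfold step at h
  have hx : Nat.xor (Nat.lor c F) F = (c ||| F) ^^^ F := rfl
  rw [hx] at h
  obtain ⟨n, hn⟩ : ∃ n, (c ||| F) ^^^ F = n + 1 := by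
    rcases Nat.eq_zero_or_pos ((c ||| F) ^^^ F) with h0 | h0
    · rw [h0, Nat.zero_testBit] at hbit
      exact absurd hbit (by decide)
    · exact ⟨_, (Nat.succ_pred_eq_of_pos h0).symm⟩
  rw [hn] at h hbit
  change (Bool.rec (motive := fun _ => Bool) false (force (Nat.lor F (negm (Nat.succ n))) k)
        (Nat.beq (Nat.land (Nat.succ n) n) 0)) = true at h
  cases hb : Nat.beq (Nat.land (Nat.succ n) n) 0
  · rw [hb] at h
    exact (Bool.false_ne_true h).elim
  · rw [hb] at h
    have h0 : (n + 1) &&& (n + 1 - 1) = 0 := Nat.eq_of_beq_eq_true hb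
    obtain ⟨m, hm⟩ := (Nat.and_sub_one_eq_zero_iff_isPowerOfTwo (Nat.succ_ne_zero n)).1 h0
    have hm' : Nat.succ n = 2 ^ m := hm
    rw [show n + 1 = 2 ^ m from hm, Nat.testBit_two_pow] at hbit
    have hlm : m = l := by simpa using hbit
    subst hlm
    change force (Nat.lor F (negm (Nat.succ n))) k = true at h
    rw [force_eq, hm'] at h
    refine ⟨_, ?_, h⟩
    intro x hx2
    have hx3 : (F ||| negm (2 ^ m)).testBit x = true := hx2
    rw [Nat.testBit_or, Bool.or_eq_true] at hx3
    rcases hx3 with h5 | h5
    · exact hF x h5
    · exact negm_two_pow V m ht x h5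

theorem rup_sound (V : ℕ → ℕ → Prop) (t : T) (bound : ℕ)
    (ht : ∀ i < bound, Holds V (find t i)) (fuel : ℕ) : ∀ (h F : ℕ),
    (∀ x, F.testBit x = true → ¬ tr V x) → rup t bound fuel h F = true → False := by
  induction fuel with
  | zero =>
    intro h F _ hr
    exact absurd hr (by change ¬ (false = true); decide)
  | succ n ih =>
    intro h F hF hr
    change force (Nat.mod h 8192) (fun i =>
        Bool.rec (motive := fun _ => Bool) false
          (step (find t i) F
            (fun F' => force (Nat.div h 8192) fun h' => rup t bound n h' F'))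
          (Nat.ble (Nat.succ i) bound)) = true at hr
    rw [force_eq] at hr
    cases hb : Nat.ble (Nat.succ (Nat.mod h 8192)) bound
    · rw [hb] at hr
      exact (Bool.false_ne_true hr).elim
    · rw [hb] at hr
      have hlt : Nat.mod h 8192 < bound := Nat.le_of_ble_eq_true hb
      obtain ⟨F', hF', hk⟩ := step_sound V _ _ _ (ht _ hlt) hF hr
      rw [force_eq] at hk
      exact ih _ _ hF' hk

theorem chk_sound (V : ℕ → ℕ → Prop) (t : T) (hs : List ℕ) : ∀ s : ℕ,
    (∀ i < s, Holds V (find t i)) → chk t hs s = true →
    ∀ i < s + hs.length, Holds V (find t i) := by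
  induction hs with
  | nil =>
    intro s h0 _ i hi
    exact h0 i (by simpa using hi)
  | cons a hs ih =>
    intro s h0 hc
    change (Bool.rec (motive := fun _ => Bool) false (force (Nat.succ s) (chk t hs))
        (rup t s 400 a (find t s))) = true at hc
    cases hb : rup t s 400 a (find t s)
    · rw [hb] at hc
      exact (Bool.false_ne_true hc).elim
    · rw [hb] at hc
      change force (Nat.succ s) (chk t hs) = true at hc
      rw [force_eq] at hc
      have hs' : Holds V (find t s) := by
        by_contra hcon
        refine rup_sound V t s h0 400 a (find t s) (fun x hx hx2 => hcon ⟨x, hx, hx2⟩) hb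
      have h1 : ∀ i < s + 1, Holds V (find t i) := by
        intro i hi
        rcases Nat.lt_succ_iff_lt_or_eq.1 hi with h2 | h2
        · exact h0 i h2
        · rw [h2]
          exact hs'
      intro i hi
      have hi' : i < Nat.succ s + hs.length := by
        rw [List.length_cons] at hi
        omega
      exact ih (Nat.succ s) h1 hc i hi'

theorem not_holds_zero (V : ℕ → ℕ → Prop) : ¬ Holds V 0 := by
  rintro ⟨l, hl, -⟩
  rw [Nat.zero_testBit] at hl
  exact absurd hl (by decide)

end H14SI
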