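import Pool.Agent.H14SI.Ax

/-!
A semiintersecting family with ten members whose halves have `3m` points each, in sets with `10m`
points: the clauses of the clause tree hold for it.
-/

set_option autoImplicit false

namespace H14SI

open Finset

/-- Ten members `(X i, Y i)`, `i < 10`, of a semiintersecting family with `k = 3m`, `N = 10m`. -/
structure Good {α β : Type} [Fintype α] [Fintype β] [DecidableEq α] [DecidableEq β] (m : ℕ)
    (X : ℕ → Finset α) (Y : ℕ → Finset β) : Prop where
  pos : 0 < m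
  ca : Fintype.card α = 10 * m
  cb : Fintype.card β = 10 * m
  cX : ∀ i < 10, (X i).card = 3 * m
  cY : ∀ i < 10, (Y i).card = 3 * m
  xy : ∀ i < 10, ∀ j < 10, i ≠ j → (¬ Disjoint (X i) (X j) ↔ Disjoint (Y i) (Y j))

section

variable {α β : Type} [Fintype α] [Fintype β] [DecidableEq α] [DecidableEq β] {m : ℕ}
  {X : ℕ → Finset α} {Y : ℕ → Finset β}

theorem Good.swap (g : Good m X Y) : Good m Y X where
  pos := g.pos
  ca := g.cb
  cb := g.ca
  cX := g.cY
  cY := g.cX
  xy := by
    intro i hi j hj hij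
    have h := g.xy i hi j hj hij
    tauto

/-- Four members do not meet pairwise in the first half. -/
theorem Good.fourX (g : Good m X Y) (s : Finset ℕ) (hs : s ⊆ range 10) (h4 : s.card = 4)
    (hm : ∀ i ∈ s, ∀ j ∈ s, i ≠ j → ¬ Disjoint (X i) (X j)) : False := by
  have h1 : (s.biUnion Y).card = ∑ i ∈ s, (Y i).card := by
    apply card_biUnion
    intro i hi j hj hij
    exact (g.xy i (mem_range.1 (hs hi)) j (mem_range.1 (hs hj)) hij).1 (hm i hi j hj hij)
  have h2 : ∑ i ∈ s, (Y i).card = ∑ i ∈ s, 3 * m :=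
    sum_congr rfl fun i hi => g.cY i (mem_range.1 (hs hi))
  have h3 : (s.biUnion Y).card ≤ 10 * m := by
    rw [← g.cb]
    exact card_le_univ _
  rw [h1, h2, sum_const, h4] at h3
  have := g.pos
  simp only [smul_eq_mul] at h3
  omega

/-- The members through a point. -/
def thr (X : ℕ → Finset α) (a : α) : Finset ℕ := (range 10).filter fun i => a ∈ X i

theorem Good.thr_le (g : Good m X Y) (a : α) : (thr X a).card ≤ 3 := by
  by_contra h
  obtain ⟨s, hs, h4⟩ := exists_subset_card_eq (s := thr X a) (n := 4) (by omega)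
  refine g.fourX s (fun i hi => (mem_filter.1 (hs hi)).1) h4 ?_
  intro i hi j hj _ hd
  exact disjoint_left.1 hd (mem_filter.1 (hs hi)).2 (mem_filter.1 (hs hj)).2

theorem Good.thr_eq (g : Good m X Y) (a : α) : (thr X a).card = 3 := by
  have h1 : ∑ a : α, (thr X a).card = ∑ i ∈ range 10, (X i).card := by
    have e1 : ∀ a : α, (thr X a).card = ∑ i ∈ range 10, if a ∈ X i then 1 else 0 := by
      intro a
      unfold thr
      rw [card_filter]
    have e2 : ∀ i : ℕ, (X i).card = ∑ a : α, if a ∈ X i then 1 else 0 := by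
      intro i
      rw [← card_filter, filter_univ_mem]
    rw [sum_congr rfl fun a _ => e1 a, sum_comm, sum_congr rfl fun i _ => e2 i]
  have h2 : ∑ i ∈ range 10, (X i).card = ∑ a : α, 3 := by
    rw [sum_congr rfl fun i hi => g.cX i (mem_range.1 hi), sum_const, sum_const, card_range,
      card_univ, g.ca]
    simp only [smul_eq_mul]
    ring
  have h3 := (sum_eq_sum_iff_of_le (s := (univ : Finset α)) fun a _ => g.thr_le a).1 (h1.trans h2)
  exact h3 a (mem_univ a)

theorem Good.k4X (g : Good m X Y) (a b d e : ℕ) (h1 : a < b) (h2 : b < d) (h3 : d < e)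
    (h4 : e < 10) (k1 : ¬ Disjoint (X a) (X b)) (k2 : ¬ Disjoint (X a) (X d))
    (k3 : ¬ Disjoint (X a) (X e)) (k4 : ¬ Disjoint (X b) (X d)) (k5 : ¬ Disjoint (X b) (X e))
    (k6 : ¬ Disjoint (X d) (X e)) : False := by
  have c4 : ({a, b, d, e} : Finset ℕ).card = 4 := by
    rw [card_insert_of_notMem, card_insert_of_notMem, card_insert_of_notMem, card_singleton]
    · simp only [mem_singleton]
      omega
    · simp only [mem_insert, mem_singleton]
      omega
    · simp only [mem_insert, mem_singleton]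
      omega
  refine g.fourX {a, b, d, e} ?_ c4 ?_
  · intro x hx
    simp only [mem_insert, mem_singleton] at hx
    rw [mem_range]
    omega
  · intro i hi j hj hij
    simp only [mem_insert, mem_singleton] at hi hj
    rcases hi with rfl | rfl | rfl | rfl <;> rcases hj with rfl | rfl | rfl | rfl <;>
      first
        | exact absurd rfl hij
        | assumption
        | (intro hd; exact absurd hd.symm (by assumption))

theorem Good.hrX (g : Good m X Y) (i j : ℕ) (h : 2 * m ≤ (X i ∩ X j).card) :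
    ¬ Disjoint (X i) (X j) := by
  intro hd
  rw [disjoint_iff_inter_eq_empty] at hd
  rw [hd, card_empty] at h
  have := g.pos
  omega

theorem Good.kmX (g : Good m X Y) (v x y z : ℕ) (hv : v < 10) (hx : x < 10) (hy : y < 10)
    (hz : z < 10) (k1 : Disjoint (X v) (X x)) (k2 : Disjoint (X v) (X y))
    (k3 : Disjoint (X v) (X z)) (k4 : Disjoint (X x) (X y)) (k5 : Disjoint (X x) (X z)) :
    2 * m ≤ (X y ∩ X z).card := by
  have h1 : (X v ∪ (X x ∪ (X y ∪ X z))).card = (X v).card + ((X x).card + (X y ∪ X z).card) := by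
    rw [card_union_of_disjoint, card_union_of_disjoint]
    · exact disjoint_union_right.2 ⟨k4, k5⟩
    · exact disjoint_union_right.2 ⟨k1, disjoint_union_right.2 ⟨k2, k3⟩⟩
  have h2 : (X v ∪ (X x ∪ (X y ∪ X z))).card ≤ 10 * m := by
    rw [← g.ca]
    exact card_le_univ _
  have h3 := card_union_add_card_inter (X y) (X z)
  rw [g.cX v hv, g.cX x hx] at h1
  rw [g.cX y hy, g.cX z hz] at h3
  omega

theorem Good.hhX (g : Good m X Y) (y z u : ℕ) (hy : y < 10) (h1 : 2 * m ≤ (X y ∩ X z).card)
    (h2 : 2 * m ≤ (X y ∩ X u).card) : ¬ Disjoint (X z) (X u) := by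
  intro hd
  have h3 : Disjoint (X y ∩ X z) (X y ∩ X u) :=
    disjoint_of_subset_left inter_subset_right (disjoint_of_subset_right inter_subset_right hd)
  have h4 : ((X y ∩ X z) ∪ (X y ∩ X u)).card ≤ (X y).card :=
    card_le_card (union_subset inter_subset_left inter_subset_left)
  rw [card_union_of_disjoint h3, g.cX y hy] at h4
  have := g.pos
  omega

theorem Good.p3X (g : Good m X Y) (i j : ℕ) (hi : i < 10) (hj : j < 10) (hij : i ≠ j)
    (h : ¬ Disjoint (X i) (X j)) :
    ∃ k < 10, k ≠ i ∧ k ≠ j ∧ ¬ Disjoint (X i) (X k) ∧ ¬ Disjoint (X j) (X k) := by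
  obtain ⟨a, ha, hb⟩ := not_disjoint_iff.1 h
  have h3 := g.thr_eq a
  have h4 : 0 < (thr X a \ {i, j}).card := by
    have h5 := le_card_sdiff {i, j} (thr X a)
    have h6 : ({i, j} : Finset ℕ).card ≤ 2 := card_le_two
    omega
  obtain ⟨k, hk⟩ := card_pos.1 h4
  rw [mem_sdiff, mem_insert, mem_singleton] at hk
  obtain ⟨hk1, hk2⟩ := hk
  have hk3 := mem_filter.1 hk1
  exact ⟨k, mem_range.1 hk3.1, fun e => hk2 (Or.inl e), fun e => hk2 (Or.inr e),
    not_disjoint_iff.2 ⟨a, ha, hk3.2⟩, not_disjoint_iff.2 ⟨a, hb, hk3.2⟩⟩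

theorem Good.p2X (g : Good m X Y) (a b d : ℕ) (ha : a < 10) (hb : b < 10) (hd : d < 10) :
    ∃ p q r, p < q ∧ q < r ∧ r < 10 ∧ p ≠ a ∧ p ≠ b ∧ p ≠ d ∧ q ≠ a ∧ q ≠ b ∧ q ≠ d ∧ r ≠ a ∧
      r ≠ b ∧ r ≠ d ∧ ¬ Disjoint (X p) (X q) ∧ ¬ Disjoint (X p) (X r) ∧
      ¬ Disjoint (X q) (X r) := by
  have h1 : (X a ∪ (X b ∪ X d)).card ≤ 9 * m := by
    have e1 := card_union_le (X a) (X b ∪ X d)
    have e2 := card_union_le (X b) (X d)
    rw [g.cX a ha] at e1
    rw [g.cX b hb, g.cX d hd] at e2
    omega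
  obtain ⟨t, ht⟩ : ∃ t, t ∉ X a ∪ (X b ∪ X d) := by
    by_contra hcon
    push Not at hcon
    have h2 : X a ∪ (X b ∪ X d) = univ := eq_univ_iff_forall.2 hcon
    rw [h2, card_univ, g.ca] at h1
    have := g.pos
    omega
  rw [mem_union, mem_union, not_or, not_or] at ht
  have h3 := g.thr_eq t
  have hmem : ∀ i, (thr X t).orderEmbOfFin h3 i ∈ thr X t := fun i => orderEmbOfFin_mem _ _ _
  have hin : ∀ i, t ∈ X ((thr X t).orderEmbOfFin h3 i) := fun i => (mem_filter.1 (hmem i)).2
  have hne : ∀ i, (thr X t).orderEmbOfFin h3 i ≠ a ∧ (thr X t).orderEmbOfFin h3 i ≠ b ∧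
      (thr X t).orderEmbOfFin h3 i ≠ d := by
    intro i
    refine ⟨fun e => ht.1 ?_, fun e => ht.2.1 ?_, fun e => ht.2.2 ?_⟩
    · rw [← e]
      exact hin i
    · rw [← e]
      exact hin i
    · rw [← e]
      exact hin i
  refine ⟨(thr X t).orderEmbOfFin h3 0, (thr X t).orderEmbOfFin h3 1,
    (thr X t).orderEmbOfFin h3 2, ?_, ?_, mem_range.1 (mem_filter.1 (hmem 2)).1, (hne 0).1,
    (hne 0).2.1, (hne 0).2.2, (hne 1).1, (hne 1).2.1, (hne 1).2.2, (hne 2).1, (hne 2).2.1,
    (hne 2).2.2, not_disjoint_iff.2 ⟨t, hin 0, hin 1⟩, not_disjoint_iff.2 ⟨t, hin 0, hin 2⟩,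
    not_disjoint_iff.2 ⟨t, hin 1, hin 2⟩⟩
  · exact ((thr X t).orderEmbOfFin h3).strictMono (by decide)
  · exact ((thr X t).orderEmbOfFin h3).strictMono (by decide)

/-- Two members meet in the first half. -/
def red (X : ℕ → Finset α) (i j : ℕ) : Prop := ¬ Disjoint (X i) (X j)

/-- Two members share two thirds of their points in this half. -/
def heavy (m : ℕ) (X : ℕ → Finset α) (i j : ℕ) : Prop := 2 * m ≤ (X i ∩ X j).card

theorem Good.col_true (i j : ℕ) : col (red X) true i j ↔ ¬ Disjoint (X i) (X j) := by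
  simp [col, red]

theorem Good.col_false (g : Good m X Y) (i j : ℕ) (hi : i < 10) (hj : j < 10) (hij : i ≠ j) :
    col (red X) false i j ↔ ¬ Disjoint (Y i) (Y j) := by
  have h := g.xy i hi j hj hij
  unfold col red
  simp only [Bool.false_eq_true, if_false]
  tauto

theorem Good.ax (g : Good m X Y) : Ax (red X) (heavy m X) (heavy m Y) where
  sym := fun i j h hd => h hd.symm
  hsym := by
    intro c i j h
    cases c
    · simp only [sel, Bool.false_eq_true, if_false, heavy] at h ⊢
      rwa [inter_comm]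
    · simp only [sel, if_true, heavy] at h ⊢
      rwa [inter_comm]
  k4 := by
    intro c a b d e h1 h2 h3 h4 k1 k2 k3 k4 k5 k6
    cases c
    · exact g.swap.k4X a b d e h1 h2 h3 h4
        ((g.col_false _ _ (by omega) (by omega) (by omega)).1 k1)
        ((g.col_false _ _ (by omega) (by omega) (by omega)).1 k2)
        ((g.col_false _ _ (by omega) (by omega) (by omega)).1 k3)
        ((g.col_false _ _ (by omega) (by omega) (by omega)).1 k4)
        ((g.col_false _ _ (by omega) (by omega) (by omega)).1 k5)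
        ((g.col_false _ _ (by omega) (by omega) (by omega)).1 k6)
    · exact g.k4X a b d e h1 h2 h3 h4 ((Good.col_true _ _).1 k1) ((Good.col_true _ _).1 k2)
        ((Good.col_true _ _).1 k3) ((Good.col_true _ _).1 k4) ((Good.col_true _ _).1 k5)
        ((Good.col_true _ _).1 k6)
  hr := by
    intro c i j h1 h2 h
    cases c
    · exact (g.col_false _ _ (by omega) (by omega) (by omega)).2
        (g.swap.hrX i j (by simpa [sel, heavy] using h))
    · exact (Good.col_true _ _).2 (g.hrX i j (by simpa [sel, heavy] using h))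
  km := by
    intro c v x y z hv hx hy hz n1 n2 n3 n4 n5 n6 k1 k2 k3 k4 k5
    cases c
    · have q : ∀ i j : ℕ, i < 10 → j < 10 → i ≠ j → ¬ col (red X) false i j →
          Disjoint (Y i) (Y j) := fun i j hi hj hij h => by
        by_contra hcon
        exact h ((g.col_false i j hi hj hij).2 hcon)
      have h := g.swap.kmX v x y z hv hx hy hz (q _ _ hv hx n1 k1) (q _ _ hv hy n2 k2)
        (q _ _ hv hz n3 k3) (q _ _ hx hy n4 k4) (q _ _ hx hz n5 k5)
      simpa [sel, heavy] using h
    · have q : ∀ i j : ℕ, ¬ col (red X) true i j → Disjoint (X i) (X j) := fun i j h => by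
        by_contra hcon
        exact h ((Good.col_true i j).2 hcon)
      have h := g.kmX v x y z hv hx hy hz (q _ _ k1) (q _ _ k2) (q _ _ k3) (q _ _ k4) (q _ _ k5)
      simpa [sel, heavy] using h
  hh := by
    intro c y z u hy hz hu n1 n2 n3 k1 k2
    cases c
    · exact (g.col_false _ _ hz hu n3).2 (g.swap.hhX y z u hy (by simpa [sel, heavy] using k1)
        (by simpa [sel, heavy] using k2))
    · exact (Good.col_true _ _).2 (g.hhX y z u hy (by simpa [sel, heavy] using k1)
        (by simpa [sel, heavy] using k2))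
  p3 := by
    intro c i j h1 h2 h
    cases c
    · obtain ⟨k, hk, e1, e2, e3, e4⟩ := g.swap.p3X i j (by omega) h2 (by omega)
        ((g.col_false _ _ (by omega) h2 (by omega)).1 h)
      exact ⟨k, hk, e1, e2, (g.col_false _ _ (by omega) hk (fun e => e1 e.symm)).2 e3,
        (g.col_false _ _ h2 hk (fun e => e2 e.symm)).2 e4⟩
    · obtain ⟨k, hk, e1, e2, e3, e4⟩ := g.p3X i j (by omega) h2 (by omega)
        ((Good.col_true _ _).1 h)
      exact ⟨k, hk, e1, e2, (Good.col_true _ _).2 e3, (Good.col_true _ _).2 e4⟩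
  p2 := by
    intro c a b d h1 h2 h3
    cases c
    · obtain ⟨p, q, r, hpq, hqr, hr, e1, e2, e3, e4, e5, e6, e7, e8, e9, c1, c2, c3⟩ :=
        g.swap.p2X a b d (by omega) (by omega) h3
      exact ⟨p, q, r, hpq, hqr, hr, e1, e2, e3, e4, e5, e6, e7, e8, e9,
        (g.col_false _ _ (by omega) (by omega) (by omega)).2 c1,
        (g.col_false _ _ (by omega) (by omega) (by omega)).2 c2,
        (g.col_false _ _ (by omega) (by omega) (by omega)).2 c3⟩
    · obtain ⟨p, q, r, hpq, hqr, hr, e1, e2, e3, e4, e5, e6, e7, e8, e9, c1, c2, c3⟩ :=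
        g.p2X a b d (by omega) (by omega) h3
      exact ⟨p, q, r, hpq, hqr, hr, e1, e2, e3, e4, e5, e6, e7, e8, e9,
        (Good.col_true _ _).2 c1, (Good.col_true _ _).2 c2, (Good.col_true _ _).2 c3⟩

/-- Renaming of the members by the entries of a list. -/
theorem Good.relabel (g : Good m X Y) (l : List ℕ) (hl : l.length = 10) (hn : l.Nodup)
    (hlt : ∀ x ∈ l, x < 10) : Good m (fun i => X (l.getD i 0)) (fun i => Y (l.getD i 0)) := by
  have h1 : ∀ i < 10, l.getD i 0 < 10 := by
    intro i hi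
    have hi' : i < l.length := by omega
    rw [List.getD_eq_getElem _ _ hi']
    exact hlt _ (List.getElem_mem hi')
  have h2 : ∀ i < 10, ∀ j < 10, i ≠ j → l.getD i 0 ≠ l.getD j 0 := by
    intro i hi j hj hij
    have hi' : i < l.length := by omega
    have hj' : j < l.length := by omega
    rw [List.getD_eq_getElem _ _ hi', List.getD_eq_getElem _ _ hj']
    intro e
    exact hij ((List.Nodup.getElem_inj_iff hn).1 e)
  exact ⟨g.pos, g.ca, g.cb, fun i hi => g.cX _ (h1 i hi), fun i hi => g.cY _ (h1 i hi),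
    fun i hi j hj hij => g.xy _ (h1 i hi) _ (h1 j hj) (h2 i hi j hj hij)⟩

end

end H14SI
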