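import Mathlib.Data.Finset.Sum
import Mathlib.Tactic

/-!
Nine members with `k = 3m`, `N = 10m`: the blow-up of a family on ten blocks.
-/

set_option autoImplicit false

namespace H14SI

open Finset

/-- The blocks of the first half of the member `i`. -/
def bA : ℕ → Finset (Fin 10)
  | 0 => {0, 1, 2} | 1 => {0, 1, 2} | 2 => {0, 1, 2} | 3 => {3, 4, 5} | 4 => {3, 4, 5}
  | 5 => {3, 4, 5} | _ => {6, 7, 8}

/-- The blocks of the second half of the member `i`. -/
def bB : ℕ → Finset (Fin 10)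
  | 0 => {0, 3, 6} | 1 => {1, 4, 7} | 2 => {2, 5, 8} | 3 => {0, 4, 8} | 4 => {1, 5, 6}
  | 5 => {2, 3, 7} | 6 => {0, 5, 7} | 7 => {1, 3, 8} | _ => {2, 4, 6}

theorem bA_card : ∀ i ∈ range 9, (bA i).card = 3 := by decide

theorem bB_card : ∀ i ∈ range 9, (bB i).card = 3 := by decide

theorem b_meet : ∀ i ∈ range 9, ∀ j ∈ range 9, i ≠ j →
    ((bA i ∩ bA j).card ≠ 0 ∧ (bB i ∩ bB j).card = 0) ∨
      ((bA i ∩ bA j).card = 0 ∧ (bB i ∩ bB j).card ≠ 0) := by decide +kernel

/-- The points in the blocks of `P`. -/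
def blk (m : ℕ) (P : Finset (Fin 10)) : Finset (Fin (10 * m)) :=
  (P ×ˢ (univ : Finset (Fin m))).map finProdFinEquiv.toEmbedding

theorem blk_card (m : ℕ) (P : Finset (Fin 10)) : (blk m P).card = P.card * m := by
  unfold blk
  rw [card_map, card_product, card_univ, Fintype.card_fin]

theorem blk_inter (m : ℕ) (P Q : Finset (Fin 10)) : blk m P ∩ blk m Q = blk m (P ∩ Q) := by
  unfold blk
  rw [← map_inter, product_inter_product, inter_self]

theorem blk_nonempty (m : ℕ) (hm : 0 < m) (P Q : Finset (Fin 10)) :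
    (blk m P ∩ blk m Q).Nonempty ↔ (P ∩ Q).card ≠ 0 := by
  rw [blk_inter, ← card_ne_zero, blk_card]
  constructor
  · intro h h0
    rw [h0, zero_mul] at h
    exact h rfl
  · intro h h0
    rcases Nat.mul_eq_zero.1 h0 with h1 | h1
    · exact h h1
    · omega

/-- The member `i`. -/
def mem9 (m i : ℕ) : Finset (Fin (10 * m) ⊕ Fin (10 * m)) :=
  (blk m (bA i)).disjSum (blk m (bB i))

theorem exists_nine (m : ℕ) (hm : 0 < m) :
    ∃ F : Finset (Finset (Fin (10 * m) ⊕ Fin (10 * m))), F.card = 9 ∧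
      (∀ S ∈ F, S.toLeft.card = 3 * m ∧ S.toRight.card = 3 * m) ∧
      ∀ S ∈ F, ∀ T ∈ F, S ≠ T →
        ((S.toLeft ∩ T.toLeft).Nonempty ∧ ¬ (S.toRight ∩ T.toRight).Nonempty) ∨
          (¬ (S.toLeft ∩ T.toLeft).Nonempty ∧ (S.toRight ∩ T.toRight).Nonempty) := by
  have hx : ∀ i ∈ range 9, ∀ j ∈ range 9, i ≠ j →
      (((mem9 m i).toLeft ∩ (mem9 m j).toLeft).Nonempty ∧
        ¬ ((mem9 m i).toRight ∩ (mem9 m j).toRight).Nonempty) ∨
      (¬ ((mem9 m i).toLeft ∩ (mem9 m j).toLeft).Nonempty ∧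
        ((mem9 m i).toRight ∩ (mem9 m j).toRight).Nonempty) := by
    intro i hi j hj hij
    unfold mem9
    rw [toLeft_disjSum, toLeft_disjSum, toRight_disjSum, toRight_disjSum, blk_nonempty m hm,
      blk_nonempty m hm]
    rcases b_meet i hi j hj hij with ⟨h1, h2⟩ | ⟨h1, h2⟩
    · exact Or.inl ⟨h1, fun h => h h2⟩
    · exact Or.inr ⟨fun h => h h1, h2⟩
  have hcard : ∀ i ∈ range 9, (mem9 m i).toLeft.card = 3 * m ∧ (mem9 m i).toRight.card = 3 * m := by
    intro i hi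
    unfold mem9
    rw [toLeft_disjSum, toRight_disjSum, blk_card, blk_card, bA_card i hi, bB_card i hi]
    exact ⟨rfl, rfl⟩
  have hinj : ∀ i ∈ range 9, ∀ j ∈ range 9, mem9 m i = mem9 m j → i = j := by
    intro i hi j hj h
    by_contra hij
    have h1 := hx i hi j hj hij
    rw [← h, inter_self, inter_self] at h1
    have h2 := hcard i hi
    have h3 : (mem9 m i).toLeft.Nonempty := card_pos.1 (by omega)
    have h4 : (mem9 m i).toRight.Nonempty := card_pos.1 (by omega)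
    rcases h1 with ⟨-, h5⟩ | ⟨h5, -⟩
    · exact h5 h4
    · exact h5 h3
  refine ⟨(range 9).image (mem9 m), ?_, ?_, ?_⟩
  · rw [card_image_of_injOn]
    · exact card_range 9
    · intro i hi j hj h
      exact hinj i (mem_coe.1 hi) j (mem_coe.1 hj) h
  · intro S hS
    obtain ⟨i, hi, rfl⟩ := mem_image.1 hS
    exact hcard i hi
  · intro S hS T hT hST
    obtain ⟨i, hi, rfl⟩ := mem_image.1 hS
    obtain ⟨j, hj, rfl⟩ := mem_image.1 hT
    exact hx i hi j hj (fun e => hST (by rw [e]))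

end H14SI
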