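import Pool.Agent.H14SI.Fam
import Pool.Agent.H14SI.CStar
import Pool.Agent.H14SI.CNoTri
import Pool.Agent.H14SI.CSix
import Pool.Agent.H14SI.CMatch

/-!
There is no semiintersecting family with ten members, `k = 3m` and `N = 10m`.
-/

set_option autoImplicit false

namespace H14SI

open Finset

section

variable {α β : Type} [Fintype α] [Fintype β] [DecidableEq α] [DecidableEq β] {m : ℕ}
  {X : ℕ → Finset α} {Y : ℕ → Finset β}

/-- The pattern at the member `0` after renaming. -/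
def Base (X : ℕ → Finset α) : Prop :=
  ¬ red X 0 1 ∧ ¬ red X 0 2 ∧ ¬ red X 0 3 ∧ ¬ red X 0 4 ∧ ¬ red X 0 5 ∧ red X 3 4 ∧ red X 3 5 ∧
    red X 4 5 ∧ ¬ red X 1 3

theorem l_six (g : Good m X Y) (b : Base X) (h : ¬ red X 0 6) : False := by
  obtain ⟨b1, b2, b3, b4, b5, b6, b7, b8, b9⟩ := b
  refine CSix.refute g.ax ?_
  simp only [CSix.fix, List.forall_mem_cons, col, Bool.false_eq_true, if_false, if_true]
  refine ⟨b1, b2, b3, b4, b5, b6, b7, b8, b9, h, ?_⟩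
  simp

theorem l_star (g : Good m X Y) (b : Base X) (h6 : red X 0 6) (h7 : red X 0 7) (h8 : red X 0 8)
    (h9 : red X 0 9) (k1 : red X 6 7) (k2 : red X 6 8) (k3 : red X 6 9) (k4 : ¬ red X 7 8)
    (k5 : ¬ red X 7 9) (k6 : ¬ red X 8 9) : False := by
  obtain ⟨b1, b2, b3, b4, b5, b6, b7, b8, b9⟩ := b
  refine CStar.refute g.ax ?_
  simp only [CStar.fix, List.forall_mem_cons, col, Bool.false_eq_true, if_false, if_true]
  refine ⟨b1, b2, b3, b4, b5, b6, b7, b8, b9, h6, h7, h8, h9, k1, k2, k3, k4, k5, k6, ?_⟩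
  simp

theorem l_match (g : Good m X Y) (b : Base X) (h6 : red X 0 6) (h7 : red X 0 7) (h8 : red X 0 8)
    (h9 : red X 0 9) (k1 : red X 6 7) (k2 : red X 8 9) : False := by
  obtain ⟨b1, b2, b3, b4, b5, b6, b7, b8, b9⟩ := b
  refine CMatch.refute g.ax ?_
  simp only [CMatch.fix, List.forall_mem_cons, col, Bool.false_eq_true, if_false, if_true]
  refine ⟨b1, b2, b3, b4, b5, b6, b7, b8, b9, h6, h7, h8, h9, k1, k2, ?_⟩
  simp

theorem l_one (g : Good m X Y) (b : Base X) : False := by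
  have rs : ∀ i j, red X i j → red X j i := fun i j h hd => h hd.symm
  by_cases h6 : red X 0 6
  swap
  · exact l_six g b h6
  by_cases h7 : red X 0 7
  swap
  · exact l_six (g.relabel [0, 1, 2, 3, 4, 5, 7, 6, 8, 9] rfl (by decide) (by decide)) b h7
  by_cases h8 : red X 0 8
  swap
  · exact l_six (g.relabel [0, 1, 2, 3, 4, 5, 8, 6, 7, 9] rfl (by decide) (by decide)) b h8
  by_cases h9 : red X 0 9
  swap
  · exact l_six (g.relabel [0, 1, 2, 3, 4, 5, 9, 6, 7, 8] rfl (by decide) (by decide)) b h9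
  have b' := b
  obtain ⟨b1, b2, b3, b4, b5, -⟩ := b'
  -- every one of 6, 7, 8, 9 meets another of them
  have nb : ∀ i, 5 < i → i < 10 → red X 0 i → ∃ k, 5 < k ∧ k < 10 ∧ k ≠ i ∧ red X i k := by
    intro i h5 hi hr
    obtain ⟨k, hk, e1, e2, e3, e4⟩ := g.p3X 0 i (by omega) hi (by omega) hr
    have hk5 : 5 < k := by
      by_contra hcon
      have : k = 1 ∨ k = 2 ∨ k = 3 ∨ k = 4 ∨ k = 5 := by omega
      rcases this with rfl | rfl | rfl | rfl | rfl
      · exact b1 e3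
      · exact b2 e3
      · exact b3 e3
      · exact b4 e3
      · exact b5 e3
    exact ⟨k, hk5, hk, e2, e4⟩
  have n6 : red X 6 7 ∨ red X 6 8 ∨ red X 6 9 := by
    obtain ⟨k, q1, q2, q3, q4⟩ := nb 6 (by norm_num) (by norm_num) h6
    have : k = 7 ∨ k = 8 ∨ k = 9 := by omega
    rcases this with rfl | rfl | rfl
    · exact Or.inl q4
    · exact Or.inr (Or.inl q4)
    · exact Or.inr (Or.inr q4)
  have n7 : red X 6 7 ∨ red X 7 8 ∨ red X 7 9 := by
    obtain ⟨k, q1, q2, q3, q4⟩ := nb 7 (by norm_num) (by norm_num) h7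
    have : k = 6 ∨ k = 8 ∨ k = 9 := by omega
    rcases this with rfl | rfl | rfl
    · exact Or.inl (rs _ _ q4)
    · exact Or.inr (Or.inl q4)
    · exact Or.inr (Or.inr q4)
  have n8 : red X 6 8 ∨ red X 7 8 ∨ red X 8 9 := by
    obtain ⟨k, q1, q2, q3, q4⟩ := nb 8 (by norm_num) (by norm_num) h8
    have : k = 6 ∨ k = 7 ∨ k = 9 := by omega
    rcases this with rfl | rfl | rfl
    · exact Or.inl (rs _ _ q4)
    · exact Or.inr (Or.inl (rs _ _ q4))
    · exact Or.inr (Or.inr q4)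
  have n9 : red X 6 9 ∨ red X 7 9 ∨ red X 8 9 := by
    obtain ⟨k, q1, q2, q3, q4⟩ := nb 9 (by norm_num) (by norm_num) h9
    have : k = 6 ∨ k = 7 ∨ k = 8 := by omega
    rcases this with rfl | rfl | rfl
    · exact Or.inl (rs _ _ q4)
    · exact Or.inr (Or.inl (rs _ _ q4))
    · exact Or.inr (Or.inr (rs _ _ q4))
  have t1 : ¬ (red X 6 7 ∧ red X 6 8 ∧ red X 7 8) := fun ⟨u1, u2, u3⟩ =>
    g.k4X 0 6 7 8 (by norm_num) (by norm_num) (by norm_num) (by norm_num) h6 h7 h8 u1 u2 u3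
  have t2 : ¬ (red X 6 7 ∧ red X 6 9 ∧ red X 7 9) := fun ⟨u1, u2, u3⟩ =>
    g.k4X 0 6 7 9 (by norm_num) (by norm_num) (by norm_num) (by norm_num) h6 h7 h9 u1 u2 u3
  have t3 : ¬ (red X 6 8 ∧ red X 6 9 ∧ red X 8 9) := fun ⟨u1, u2, u3⟩ =>
    g.k4X 0 6 8 9 (by norm_num) (by norm_num) (by norm_num) (by norm_num) h6 h8 h9 u1 u2 u3
  have t4 : ¬ (red X 7 8 ∧ red X 7 9 ∧ red X 8 9) := fun ⟨u1, u2, u3⟩ =>
    g.k4X 0 7 8 9 (by norm_num) (by norm_num) (by norm_num) (by norm_num) h7 h8 h9 u1 u2 u3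
  have m1 : ¬ (red X 6 7 ∧ red X 8 9) := fun ⟨u1, u2⟩ => l_match g b h6 h7 h8 h9 u1 u2
  have m2 : ¬ (red X 6 8 ∧ red X 7 9) := fun ⟨u1, u2⟩ =>
    l_match (g.relabel [0, 1, 2, 3, 4, 5, 6, 8, 7, 9] rfl (by decide) (by decide)) b h6 h8 h7 h9
      u1 u2
  have m3 : ¬ (red X 6 9 ∧ red X 7 8) := fun ⟨u1, u2⟩ =>
    l_match (g.relabel [0, 1, 2, 3, 4, 5, 6, 9, 7, 8] rfl (by decide) (by decide)) b h6 h9 h7 h8
      u1 u2
  have s6 : ¬ (red X 6 7 ∧ red X 6 8 ∧ red X 6 9 ∧ ¬ red X 7 8 ∧ ¬ red X 7 9 ∧ ¬ red X 8 9) :=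
    fun ⟨u1, u2, u3, u4, u5, u6⟩ => l_star g b h6 h7 h8 h9 u1 u2 u3 u4 u5 u6
  have s7 : ¬ (red X 6 7 ∧ red X 7 8 ∧ red X 7 9 ∧ ¬ red X 6 8 ∧ ¬ red X 6 9 ∧ ¬ red X 8 9) :=
    fun ⟨u1, u2, u3, u4, u5, u6⟩ =>
      l_star (g.relabel [0, 1, 2, 3, 4, 5, 7, 6, 8, 9] rfl (by decide) (by decide)) b h7 h6 h8 h9
        (rs _ _ u1) u2 u3 u4 u5 u6
  have s8 : ¬ (red X 6 8 ∧ red X 7 8 ∧ red X 8 9 ∧ ¬ red X 6 7 ∧ ¬ red X 6 9 ∧ ¬ red X 7 9) :=
    fun ⟨u1, u2, u3, u4, u5, u6⟩ =>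
      l_star (g.relabel [0, 1, 2, 3, 4, 5, 8, 6, 7, 9] rfl (by decide) (by decide)) b h8 h6 h7 h9
        (rs _ _ u1) (rs _ _ u2) u3 u4 u5 u6
  have s9 : ¬ (red X 6 9 ∧ red X 7 9 ∧ red X 8 9 ∧ ¬ red X 6 7 ∧ ¬ red X 6 8 ∧ ¬ red X 7 8) :=
    fun ⟨u1, u2, u3, u4, u5, u6⟩ =>
      l_star (g.relabel [0, 1, 2, 3, 4, 5, 9, 6, 7, 8] rfl (by decide) (by decide)) b h9 h6 h7 h8
        (rs _ _ u1) (rs _ _ u2) (rs _ _ u3) u4 u5 u6
  by_cases a1 : red X 6 7 <;> by_cases a2 : red X 6 8 <;> by_cases a3 : red X 6 9 <;>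
    by_cases a4 : red X 7 8 <;> by_cases a5 : red X 7 9 <;> by_cases a6 : red X 8 9 <;>
    simp only [a1, a2, a3, a4, a5, a6, not_true, not_false_iff, and_true, and_false, or_true,
      or_false, and_self, or_self] at *

theorem l_two (g : Good m X Y) (b1 : ¬ red X 0 1) (b2 : ¬ red X 0 2) (b3 : ¬ red X 0 3)
    (b4 : ¬ red X 0 4) (b5 : ¬ red X 0 5) (c1 : red X 3 4) (c2 : red X 3 5) (c3 : red X 4 5) :
    False := by
  have rs : ∀ i j, red X i j → red X j i := fun i j h hd => h hd.symm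
  by_cases h3 : red X 1 3
  swap
  · exact l_one g ⟨b1, b2, b3, b4, b5, c1, c2, c3, h3⟩
  by_cases h4 : red X 1 4
  swap
  · exact l_one (g.relabel [0, 1, 2, 4, 3, 5, 6, 7, 8, 9] rfl (by decide) (by decide))
      ⟨b1, b2, b4, b3, b5, rs _ _ c1, c3, c2, h4⟩
  by_cases h5 : red X 1 5
  swap
  · exact l_one (g.relabel [0, 1, 2, 5, 3, 4, 6, 7, 8, 9] rfl (by decide) (by decide))
      ⟨b1, b2, b5, b3, b4, rs _ _ c2, rs _ _ c3, c1, h5⟩
  exact g.k4X 1 3 4 5 (by norm_num) (by norm_num) (by norm_num) (by norm_num) h3 h4 h5 c1 c2 c3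

theorem l_three (g : Good m X Y) (b1 : ¬ red X 0 1) (b2 : ¬ red X 0 2) (b3 : ¬ red X 0 3)
    (b4 : ¬ red X 0 4) (b5 : ¬ red X 0 5) : False := by
  refine CNoTri.refute g.ax ?_ ?_
  · simp only [CNoTri.fix, List.forall_mem_cons, col, Bool.false_eq_true, if_false]
    refine ⟨b1, b2, b3, b4, b5, ?_⟩
    simp
  · rintro a b d h1 h2 h3 h4 ⟨c1, c2, c3⟩
    have key : (a = 1 ∧ b = 2 ∧ d = 3) ∨ (a = 1 ∧ b = 2 ∧ d = 4) ∨ (a = 1 ∧ b = 2 ∧ d = 5) ∨
        (a = 1 ∧ b = 3 ∧ d = 4) ∨ (a = 1 ∧ b = 3 ∧ d = 5) ∨ (a = 1 ∧ b = 4 ∧ d = 5) ∨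
        (a = 2 ∧ b = 3 ∧ d = 4) ∨ (a = 2 ∧ b = 3 ∧ d = 5) ∨ (a = 2 ∧ b = 4 ∧ d = 5) ∨
        (a = 3 ∧ b = 4 ∧ d = 5) := by omega
    rcases key with ⟨rfl, rfl, rfl⟩ | ⟨rfl, rfl, rfl⟩ |
      ⟨rfl, rfl, rfl⟩ | ⟨rfl, rfl, rfl⟩ | ⟨rfl, rfl, rfl⟩ | ⟨rfl, rfl, rfl⟩ | ⟨rfl, rfl, rfl⟩ |
      ⟨rfl, rfl, rfl⟩ | ⟨rfl, rfl, rfl⟩ | ⟨rfl, rfl, rfl⟩
    · exact l_two (g.relabel [0, 4, 5, 1, 2, 3, 6, 7, 8, 9] rfl (by decide) (by decide))
        b4 b5 b1 b2 b3 c1 c2 c3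
    · exact l_two (g.relabel [0, 3, 5, 1, 2, 4, 6, 7, 8, 9] rfl (by decide) (by decide))
        b3 b5 b1 b2 b4 c1 c2 c3
    · exact l_two (g.relabel [0, 3, 4, 1, 2, 5, 6, 7, 8, 9] rfl (by decide) (by decide))
        b3 b4 b1 b2 b5 c1 c2 c3
    · exact l_two (g.relabel [0, 2, 5, 1, 3, 4, 6, 7, 8, 9] rfl (by decide) (by decide))
        b2 b5 b1 b3 b4 c1 c2 c3
    · exact l_two (g.relabel [0, 2, 4, 1, 3, 5, 6, 7, 8, 9] rfl (by decide) (by decide))
        b2 b4 b1 b3 b5 c1 c2 c3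
    · exact l_two (g.relabel [0, 2, 3, 1, 4, 5, 6, 7, 8, 9] rfl (by decide) (by decide))
        b2 b3 b1 b4 b5 c1 c2 c3
    · exact l_two (g.relabel [0, 1, 5, 2, 3, 4, 6, 7, 8, 9] rfl (by decide) (by decide))
        b1 b5 b2 b3 b4 c1 c2 c3
    · exact l_two (g.relabel [0, 1, 4, 2, 3, 5, 6, 7, 8, 9] rfl (by decide) (by decide))
        b1 b4 b2 b3 b5 c1 c2 c3
    · exact l_two (g.relabel [0, 1, 3, 2, 4, 5, 6, 7, 8, 9] rfl (by decide) (by decide))
        b1 b3 b2 b4 b5 c1 c2 c3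
    · exact l_two g b1 b2 b3 b4 b5 c1 c2 c3

instance decRed (X : ℕ → Finset α) (i j : ℕ) : Decidable (red X i j) := by
  unfold red
  infer_instance

theorem l_four (g : Good m X Y)
    (h : 5 ≤ ((range 10).filter fun j => j ≠ 0 ∧ ¬ red X 0 j).card) : False := by
  set B := (range 10).filter fun j => j ≠ 0 ∧ ¬ red X 0 j with hB
  set C := (range 10).filter fun j => j ≠ 0 ∧ red X 0 j with hC
  have hBC : B.card + C.card = 9 := by
    have e1 : B ∪ C = (range 10).filter fun j => j ≠ 0 := by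
      ext j
      simp only [hB, hC, mem_union, mem_filter]
      tauto
    have e2 : Disjoint B C := by
      rw [disjoint_left]
      intro j h1 h2
      exact (mem_filter.1 h1).2.2 (mem_filter.1 h2).2.2
    rw [← card_union_of_disjoint e2, e1]
    decide
  have hlen : (0 :: (B.toList ++ C.toList)).length = 10 := by
    rw [List.length_cons, List.length_append, length_toList, length_toList]
    omega
  have hnod : (0 :: (B.toList ++ C.toList)).Nodup := by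
    rw [List.nodup_cons, List.nodup_append]
    refine ⟨?_, nodup_toList _, nodup_toList _, ?_⟩
    · rw [List.mem_append, mem_toList, mem_toList]
      rintro (h1 | h1)
      · exact (mem_filter.1 h1).2.1 rfl
      · exact (mem_filter.1 h1).2.1 rfl
    · intro x hx y hy e
      subst e
      exact (mem_filter.1 (mem_toList.1 hx)).2.2 (mem_filter.1 (mem_toList.1 hy)).2.2
  have hlt : ∀ x ∈ 0 :: (B.toList ++ C.toList), x < 10 := by
    intro x hx
    rw [List.mem_cons, List.mem_append, mem_toList, mem_toList] at hx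
    rcases hx with rfl | h1 | h1
    · norm_num
    · exact mem_range.1 (mem_filter.1 h1).1
    · exact mem_range.1 (mem_filter.1 h1).1
  have key : ∀ i < 5, ¬ red X 0 ((0 :: (B.toList ++ C.toList)).getD (i + 1) 0) := by
    intro i hi
    have hi' : i < B.toList.length := by
      rw [length_toList]
      omega
    rw [List.getD_cons_succ, List.getD_append _ _ _ _ hi', List.getD_eq_getElem _ _ hi']
    exact (mem_filter.1 (mem_toList.1 (List.getElem_mem hi'))).2.2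
  exact l_three (g.relabel _ hlen hnod hlt) (key 0 (by norm_num)) (key 1 (by norm_num))
    (key 2 (by norm_num)) (key 3 (by norm_num)) (key 4 (by norm_num))

theorem not_good (g : Good m X Y) : False := by
  by_cases h : 5 ≤ ((range 10).filter fun j => j ≠ 0 ∧ ¬ red X 0 j).card
  · exact l_four g h
  · refine l_four g.swap ?_
    have e1 : ((range 10).filter fun j => j ≠ 0 ∧ ¬ red X 0 j).card +
        ((range 10).filter fun j => j ≠ 0 ∧ ¬ red Y 0 j).card = 9 := by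
      have e2 : ((range 10).filter fun j => j ≠ 0 ∧ ¬ red X 0 j) ∪
          ((range 10).filter fun j => j ≠ 0 ∧ ¬ red Y 0 j) = (range 10).filter fun j => j ≠ 0 := by
        ext j
        simp only [mem_union, mem_filter, mem_range]
        constructor
        · rintro (h1 | h1)
          · exact ⟨h1.1, h1.2.1⟩
          · exact ⟨h1.1, h1.2.1⟩
        · rintro ⟨h1, h2⟩
          have h3 := g.xy 0 (by norm_num) j h1 (Ne.symm h2)
          unfold red
          tauto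
      have e3 : Disjoint ((range 10).filter fun j => j ≠ 0 ∧ ¬ red X 0 j)
          ((range 10).filter fun j => j ≠ 0 ∧ ¬ red Y 0 j) := by
        rw [disjoint_left]
        intro j h1 h2
        rw [mem_filter, mem_range] at h1 h2
        have h3 := g.xy 0 (by norm_num) j h1.1 (Ne.symm h1.2.1)
        have h4 := h1.2.2
        have h5 := h2.2.2
        unfold red at h4 h5
        tauto
      rw [← card_union_of_disjoint e3, e2]
      decide
    omega

end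

end H14SI
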